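import Pool.Agent.Y542.FD.Fin

/-!
A finite-dimensional connected compact Polish space which is low₂-presented (hence low₄-presented)
but not homeomorphic to any computably presented Polish space.

For a set `S` of natural numbers the space `X_S` consists of the solenoid of the points
`(z, w_0, w_1, …)` of the circle group with `M_n w_n = z` (`M_n` the Fermat numbers) and, for every
`n ∉ S`, of a small star joining the `M_n` points `z = 0`, `w_m = 0` for `m ≠ n`. The map `z` to the
circle is divisible by `M_n` exactly if `n ∈ S`. In a computably presented copy this divisibility is
a `Σ⁰₂` condition on `n`, while `X_S` has a `D`-computable presentation if `S` is the complement of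
the jump of `D`. So any `D` with `D'` not computable in `0'` and `D'' ≤ 0''` will do.
-/

set_option autoImplicit false

namespace Pool.Agent.Results.MP_f0c992_lc.Continuum

open Pool.Agent.W952.LP Pool.Agent.Y542.FD

/-- There is a finite-dimensional, compact and connected Polish space which has a `D`-computable
presentation for some `D` of low₄ (even low₂) degree but is not homeomorphic to any computably
presented Polish space. -/
theorem result : ∃ (X : Type) (_ : TopologicalSpace X), PolishSpace X ∧ CompactSpace X ∧
    ConnectedSpace X ∧ (∃ m, DimLE X m) ∧
    (∃ D : ℕ → Bool, LowN 2 D ∧ LowN 4 D ∧ Presented D X) ∧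
    ∀ (Y : Type) [TopologicalSpace Y], Presented zero Y → IsEmpty (X ≃ₜ Y) := by
  obtain ⟨X, tX, h1, h2, h3, h4, h5, h6⟩ := main
  exact ⟨X, tX, h1, h2, h3, ⟨4, h4⟩, h5, h6⟩

end Pool.Agent.Results.MP_f0c992_lc.Continuum
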